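import Pool.Agent.Lib.MP_6bc78b_nt.MS.QZ.Iface

/-! Project MS, Part QZ, module CPR (helper30): norms of products with coprime supports. -/

set_option autoImplicit false

namespace Pool.Agent.Lib.MP_6bc78b_nt.MS.QZ.H30

open ArithmeticFunction Pool.Agent.Lib.MP_6bc78b_nt.MS.QZ

theorem coprime_of {S1 S2 : Finset ℕ} (hd : Disjoint S1 S2) {a b : ℕ} (ha : a ≠ 0) (hb : b ≠ 0)
    (h1 : a.primeFactors ⊆ S1) (h2 : b.primeFactors ⊆ S2) : Nat.Coprime a b := by
  rw [← Nat.disjoint_primeFactors ha hb]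
  exact Finset.disjoint_of_subset_left h1 (Finset.disjoint_of_subset_right h2 hd)

theorem dvd_of {S1 S2 : Finset ℕ} (hd : Disjoint S1 S2) {a b a' b' : ℕ} (ha : a ≠ 0)
    (hb' : b' ≠ 0) (h1 : a.primeFactors ⊆ S1) (h2 : b'.primeFactors ⊆ S2)
    (h : a * b = a' * b') : a ∣ a' := by
  have hc := coprime_of hd ha hb' h1 h2
  exact hc.dvd_of_dvd_mul_right (h ▸ Dvd.intro b rfl)

/-- module CPR -/
theorem cpr : CprStatement := by
  intro S1 S2 f g hd hf hg
  classical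
  have key : ∀ n, (f * g) n ≠ 0 → ∃ p : ℕ × ℕ, p.1 * p.2 = n ∧ (f * g) n = f p.1 * g p.2 := by
    intro n hn
    rw [ArithmeticFunction.mul_apply] at hn
    obtain ⟨p, hp, hp0⟩ := Finset.exists_ne_zero_of_sum_ne_zero hn
    rw [Nat.mem_divisorsAntidiagonal] at hp
    refine ⟨p, hp.1, ?_⟩
    rw [ArithmeticFunction.mul_apply]
    refine Finset.sum_eq_single p ?_ ?_
    · intro q hq hqp
      rw [Nat.mem_divisorsAntidiagonal] at hq
      by_contra hq0
      apply hqp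
      have hp1 : f p.1 ≠ 0 := left_ne_zero_of_mul hp0
      have hp2 : g p.2 ≠ 0 := right_ne_zero_of_mul hp0
      have hq1 : f q.1 ≠ 0 := left_ne_zero_of_mul hq0
      have hq2 : g q.2 ≠ 0 := right_ne_zero_of_mul hq0
      have n1 : p.1 ≠ 0 := fun h => hp1 (by rw [h]; exact f.map_zero)
      have n2 : p.2 ≠ 0 := fun h => hp2 (by rw [h]; exact g.map_zero)
      have m1 : q.1 ≠ 0 := fun h => hq1 (by rw [h]; exact f.map_zero)
      have m2 : q.2 ≠ 0 := fun h => hq2 (by rw [h]; exact g.map_zero)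
      have e : p.1 * p.2 = q.1 * q.2 := hp.1.trans hq.1.symm
      have d1 : p.1 ∣ q.1 := dvd_of hd n1 m2 (hf _ hp1) (hg _ hq2) e
      have d2 : q.1 ∣ p.1 := dvd_of hd m1 n2 (hf _ hq1) (hg _ hp2) e.symm
      have e1 : q.1 = p.1 := Nat.dvd_antisymm d2 d1
      have e2 : q.2 = p.2 := by
        rw [e1] at e
        exact (Nat.eq_of_mul_eq_mul_left (Nat.pos_of_ne_zero n1) e).symm
      exact Prod.ext e1 e2
    · intro hnp
      exact absurd (Nat.mem_divisorsAntidiagonal.2 hp) hnp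
  set T : Set ℕ := {n | (f * g) n ≠ 0} with hT
  let φ : T → ℕ × ℕ := fun n => (key n.1 n.2).choose
  have hφ1 : ∀ n : T, (φ n).1 * (φ n).2 = n.1 := fun n => (key n.1 n.2).choose_spec.1
  have hφ2 : ∀ n : T, (f * g) n.1 = f (φ n).1 * g (φ n).2 := fun n =>
    (key n.1 n.2).choose_spec.2
  have hinj : Function.Injective φ := by
    intro m n h
    apply Subtype.ext
    rw [← hφ1 m, ← hφ1 n, h]
  let W : ℕ × ℕ → ENNReal := fun p => ENNReal.ofReal (‖f p.1‖ ^ 2 / (p.1 : ℝ)) *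
    ENNReal.ofReal (‖g p.2‖ ^ 2 / (p.2 : ℝ))
  have hW : NN f * NN g = ∑' p : ℕ × ℕ, W p := by
    unfold NN
    rw [ENNReal.tsum_prod (f := fun a b => ENNReal.ofReal (‖f a‖ ^ 2 / (a : ℝ)) *
      ENNReal.ofReal (‖g b‖ ^ 2 / (b : ℝ)))]
    rw [← ENNReal.tsum_mul_right]
    refine tsum_congr fun a => ?_
    rw [ENNReal.tsum_mul_left]
  rw [hW]
  have h1 : NN (f * g) = ∑' n : T, ENNReal.ofReal (‖(f * g) n.1‖ ^ 2 / (n.1 : ℝ)) := by
    unfold NN
    symm
    refine tsum_subtype_eq_of_support_subset (s := T)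
      (f := fun n : ℕ => ENNReal.ofReal (‖(f * g) n‖ ^ 2 / (n : ℝ))) ?_
    intro n hn
    rw [Function.mem_support] at hn
    intro h0
    apply hn
    rw [h0]
    simp
  rw [h1]
  calc ∑' n : T, ENNReal.ofReal (‖(f * g) n.1‖ ^ 2 / (n.1 : ℝ)) = ∑' n : T, W (φ n) := by
        refine tsum_congr fun n => ?_
        have e : ‖(f * g) n.1‖ ^ 2 / (n.1 : ℝ) = (‖f (φ n).1‖ ^ 2 / ((φ n).1 : ℝ)) *
            (‖g (φ n).2‖ ^ 2 / ((φ n).2 : ℝ)) := by
          rw [hφ2 n, norm_mul]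
          have : ((n.1 : ℕ) : ℝ) = ((φ n).1 : ℝ) * ((φ n).2 : ℝ) := by
            rw [← Nat.cast_mul, hφ1 n]
          rw [this, mul_pow, mul_div_mul_comm]
        rw [e, ENNReal.ofReal_mul (by positivity)]
    _ ≤ ∑' p : ℕ × ℕ, W p := ENNReal.tsum_comp_le_tsum_of_injective hinj W

end Pool.Agent.Lib.MP_6bc78b_nt.MS.QZ.H30
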